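import Pool.Agent.Run7.h716.ZW.Defs

/-!
# LOC: the local condition
-/

set_option autoImplicit false

namespace Pool.Agent.Run7.h232.ZW

open Polynomial Run7.h716.ZW

lemma sep_of_sign (R : ℕ) (f : ℤ → ℝ) (s : ℝ) (hs : s ≠ 0) (h : ∀ k, 0 ≤ s * f k) : Sep R f := by
  intro k k' hk hk'
  exfalso
  rcases lt_or_gt_of_ne hs with h1 | h1
  · have := h k
    have h2 : s * f k < 0 := mul_neg_of_neg_of_pos h1 hk
    linarith
  · have := h k'
    have h2 : s * f k' < 0 := mul_neg_of_pos_of_neg h1 hk'
    linarith

/-- One `δ` for all polynomials without the root `c`. -/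
lemma exists_delta (hS : S_SGN) (c : ℝ) (hc : 0 < c) (L : Finset ℝ[X]) : ∃ δ : ℝ, 0 < δ ∧ δ < c ∧
    ∀ A ∈ L, A.eval c ≠ 0 → ∀ F : ℤ → ℝ, (∀ k, 0 ≤ F k) → (∀ k, (c - δ) * F k ≤ F (k + 1)) →
      (∀ k, F (k + 1) ≤ (c + δ) * F k) → ∀ k, 0 ≤ A.eval c * ap A F k := by
  classical
  induction L using Finset.induction_on with
  | empty =>
    refine ⟨c / 2, by linarith, by linarith, ?_⟩
    intro A hA
    exact absurd hA (Finset.notMem_empty A)
  | insert B L hB ih =>
    obtain ⟨δ, h0, h1, h2⟩ := ih
    by_cases hBc : B.eval c = 0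
    · refine ⟨δ, h0, h1, ?_⟩
      intro A hA hAc
      rcases Finset.mem_insert.1 hA with rfl | hA
      · exact absurd hBc hAc
      · exact h2 A hA hAc
    · obtain ⟨δ', h0', h1', h2'⟩ := hS B c hc hBc
      refine ⟨min δ δ', lt_min h0 h0', (min_le_left _ _).trans_lt h1, ?_⟩
      intro A hA hAc F hF hF1 hF2
      rcases Finset.mem_insert.1 hA with rfl | hA
      · refine h2' F hF (fun k => ?_) (fun k => ?_)
        · have := mul_le_mul_of_nonneg_right (min_le_right δ δ') (hF k)
          have := hF1 k
          nlinarith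
        · have := mul_le_mul_of_nonneg_right (min_le_right δ δ') (hF k)
          have := hF2 k
          nlinarith
      · refine h2 A hA hAc F hF (fun k => ?_) (fun k => ?_)
        · have := mul_le_mul_of_nonneg_right (min_le_left δ δ') (hF k)
          have := hF1 k
          nlinarith
        · have := mul_le_mul_of_nonneg_right (min_le_left δ δ') (hF k)
          have := hF2 k
          nlinarith

/-- the transition function -/
noncomputable def tr (a b : ℝ) (k : ℤ) : ℝ := if k ≤ 0 then a ^ k else b ^ k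

lemma tr_pos {a b : ℝ} (ha : 0 < a) (hb : 0 < b) (k : ℤ) : 0 < tr a b k := by
  unfold tr
  split_ifs
  · exact zpow_pos ha k
  · exact zpow_pos hb k

lemma tr_up {a b : ℝ} (ha : 0 < a) (hb : 0 < b) (hba : b ≤ a) (k : ℤ) : tr a b (k + 1) ≤ a * tr a b k := by
  unfold tr
  by_cases h : k + 1 ≤ 0
  · rw [if_pos h, if_pos (by omega), zpow_add_one₀ ha.ne', mul_comm]
  · rw [if_neg h]
    by_cases h2 : k ≤ 0
    · have : k = 0 := by omega
      subst this
      rw [if_pos le_rfl]
      simpa using hba
    · rw [if_neg h2, zpow_add_one₀ hb.ne', mul_comm]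
      exact mul_le_mul_of_nonneg_right hba (zpow_pos hb k).le

lemma tr_low {a b : ℝ} (ha : 0 < a) (hb : 0 < b) (hba : b ≤ a) (k : ℤ) : b * tr a b k ≤ tr a b (k + 1) := by
  unfold tr
  by_cases h : k + 1 ≤ 0
  · rw [if_pos h, if_pos (by omega), zpow_add_one₀ ha.ne', mul_comm]
    exact mul_le_mul_of_nonneg_left hba (zpow_pos ha k).le
  · rw [if_neg h]
    by_cases h2 : k ≤ 0
    · have : k = 0 := by omega
      subst this
      rw [if_pos le_rfl]
      simp
    · rw [if_neg h2, zpow_add_one₀ hb.ne', mul_comm]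

lemma tr_good (L : Finset ℝ[X]) (R : ℕ) {a b : ℝ} (ha : 0 < a) (hb : 0 < b) (hba : b ≤ a)
    (hs : ∀ A ∈ L, Sep R (ap A (tr a b))) : Good L R (some a) (some b) (tr a b) := by
  refine ⟨fun k => (tr_pos ha hb k).le, ⟨0, tr_pos ha hb 0⟩, ?_, ?_, ?_, ?_, hs⟩
  · refine ⟨0, 1, one_pos, fun k hk => ?_⟩
    unfold tr
    rw [if_pos hk.le, one_mul]
  · refine ⟨0, 1, one_pos, fun k hk => ?_⟩
    unfold tr
    rw [if_neg (not_le.2 hk), one_mul]
  · intro x hx k
    obtain rfl := Option.some.inj hx
    exact tr_up ha hb hba k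
  · intro x hx k
    obtain rfl := Option.some.inj hx
    exact tr_low ha hb hba k

lemma ap_neg (A : ℝ[X]) (F : ℤ → ℝ) : ap A (-F) = -ap A F := by
  unfold ap
  exact map_neg _ _

lemma sep_neg {R : ℕ} {f : ℤ → ℝ} (h : Sep R f) : Sep R (-f) := by
  intro k k' hk hk'
  have h1 : 0 < f k' := by
    have : -f k' < 0 := hk'
    linarith
  have h2 : f k < 0 := by
    have : 0 < -f k := hk
    linarith
  have := h k' k h1 h2
  rw [abs_sub_comm]
  exact this

/-- the division by the root -/
lemma div_props {A : ℝ[X]} {c : ℝ} {M' : ℕ} (hc : 0 < c) (h0 : A.coeff 0 ≠ 0) (hd : A.natDegree < M' + 1)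
    (hr : A.eval c = 0) : A = (A /ₘ (X - C c)) * (X - C c) ∧ (A /ₘ (X - C c)).coeff 0 ≠ 0 ∧
      (A /ₘ (X - C c)).natDegree < M' := by
  have h1 : (X - C c) * (A /ₘ (X - C c)) = A := mul_divByMonic_eq_iff_isRoot.2 hr
  have h2 : A = (A /ₘ (X - C c)) * (X - C c) := by rw [mul_comm]; exact h1.symm
  refine ⟨h2, ?_, ?_⟩
  · intro h
    apply h0
    rw [h2, mul_coeff_zero, h, zero_mul]
  · have h3 : (A /ₘ (X - C c)) ≠ 0 := by
      intro h
      apply h0
      rw [h2, h, zero_mul, coeff_zero]
    have h4 : A.natDegree = (A /ₘ (X - C c)).natDegree + 1 := by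
      conv_lhs => rw [h2]
      rw [natDegree_mul h3 (X_sub_C_ne_zero c), natDegree_X_sub_C]
    omega

theorem t_LOC : S_SGN → S_HALF1 → S_HALF2 → S_LOC := by
  classical
  intro hS hH1 hH2 M hM L R hL c hc
  obtain ⟨δ, hδ, hδc, hsg⟩ := exists_delta hS c hc L
  refine ⟨δ, hδ, ?_, ?_⟩
  · intro a hca had
    by_cases hroot : ∃ A ∈ L, A.eval c = 0
    · obtain ⟨A₀, hA₀, hA₀c⟩ := hroot
      obtain ⟨M', rfl⟩ : ∃ M', M = M' + 1 := ⟨M - 1, by have := (hL A₀ hA₀).2; omega⟩
      obtain ⟨g, hg⟩ := hM M' rfl ((L.filter (fun A => A.eval c = 0)).image (fun A => A /ₘ (X - C c))) R (by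
        intro B hB
        obtain ⟨A, hA, rfl⟩ := Finset.mem_image.1 hB
        rw [Finset.mem_filter] at hA
        have := div_props hc (hL A hA.1).1 (hL A hA.1).2 hA.2
        exact ⟨this.2.1, this.2.2⟩) (some a) none (by
          intro x hx
          obtain rfl := Option.some.inj hx
          linarith) (by intro x hx; exact absurd hx (by simp)) (by intro x y _ hy; exact absurd hy (by simp))
      obtain ⟨F, f1, f2, f3, f4, f5, f6, f7⟩ := hH1 g a c hc hca hg.nonneg hg.lft hg.rgt (hg.up a rfl)
      refine ⟨F, f1, f2, f3, f4, ?_, ?_, ?_⟩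
      · intro x hx
        obtain rfl := Option.some.inj hx
        exact f5
      · intro x hx
        obtain rfl := Option.some.inj hx
        exact f6
      · intro A hA
        by_cases hAc : A.eval c = 0
        · have h1 := div_props hc (hL A hA).1 (hL A hA).2 hAc
          have h2 : ap (X - C c) F = g := by
            funext k
            rw [ap_linear, f7]
          rw [h1.1, ap_mul, h2]
          exact hg.sep _ (Finset.mem_image.2 ⟨A, Finset.mem_filter.2 ⟨hA, hAc⟩, rfl⟩)
        · refine sep_of_sign R _ (A.eval c) hAc (hsg A hA hAc F f1 (fun k => ?_) (fun k => ?_))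
          · have := f6 k
            have := f1 k
            nlinarith
          · have := f5 k
            have := f1 k
            nlinarith
    · push Not at hroot
      refine ⟨tr a c, tr_good L R (hc.trans hca) hc hca.le (fun A hA => ?_)⟩
      have hp := tr_pos (hc.trans hca) hc
      refine sep_of_sign R _ (A.eval c) (hroot A hA) (hsg A hA (hroot A hA) _ (fun k => (hp k).le) (fun k => ?_)
        (fun k => ?_))
      · have := tr_low (hc.trans hca) hc hca.le k
        have := hp k
        nlinarith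
      · have := tr_up (hc.trans hca) hc hca.le k
        have := hp k
        nlinarith
  · intro b hb hbd hbc
    by_cases hroot : ∃ A ∈ L, A.eval c = 0
    · obtain ⟨A₀, hA₀, hA₀c⟩ := hroot
      obtain ⟨M', rfl⟩ : ∃ M', M = M' + 1 := ⟨M - 1, by have := (hL A₀ hA₀).2; omega⟩
      obtain ⟨g, hg⟩ := hM M' rfl ((L.filter (fun A => A.eval c = 0)).image (fun A => A /ₘ (X - C c))) R (by
        intro B hB
        obtain ⟨A, hA, rfl⟩ := Finset.mem_image.1 hB
        rw [Finset.mem_filter] at hA
        have := div_props hc (hL A hA.1).1 (hL A hA.1).2 hA.2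
        exact ⟨this.2.1, this.2.2⟩) none (some b) (by intro x hx; exact absurd hx (by simp)) (by
          intro x hx
          obtain rfl := Option.some.inj hx
          exact hb) (by intro x y hx _; exact absurd hx (by simp))
      obtain ⟨F, f1, f2, f3, f4, f5, f6, f7⟩ := hH2 g b c hb hbc hg.nonneg hg.lft hg.rgt (hg.low b rfl)
      refine ⟨F, f1, f2, f3, f4, ?_, ?_, ?_⟩
      · intro x hx
        obtain rfl := Option.some.inj hx
        exact f5
      · intro x hx
        obtain rfl := Option.some.inj hx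
        exact f6
      · intro A hA
        by_cases hAc : A.eval c = 0
        · have h1 := div_props hc (hL A hA).1 (hL A hA).2 hAc
          have h2 : ap (X - C c) F = -g := by
            funext k
            rw [ap_linear, f7]
            rfl
          rw [h1.1, ap_mul, h2, ap_neg]
          exact sep_neg (hg.sep _ (Finset.mem_image.2 ⟨A, Finset.mem_filter.2 ⟨hA, hAc⟩, rfl⟩))
        · refine sep_of_sign R _ (A.eval c) hAc (hsg A hA hAc F f1 (fun k => ?_) (fun k => ?_))
          · have := f6 k
            have := f1 k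
            nlinarith
          · have := f5 k
            have := f1 k
            nlinarith
    · push Not at hroot
      refine ⟨tr c b, tr_good L R hc hb hbc.le (fun A hA => ?_)⟩
      have hp := tr_pos hc hb
      refine sep_of_sign R _ (A.eval c) (hroot A hA) (hsg A hA (hroot A hA) _ (fun k => (hp k).le) (fun k => ?_)
        (fun k => ?_))
      · have := tr_low hc hb hbc.le k
        have := hp k
        nlinarith
      · have := tr_up hc hb hbc.le k
        have := hp k
        nlinarith

end Pool.Agent.Run7.h232.ZW
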